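import Pool.Agent.H95.DR.Targets

/-!
# The row ALN: the lattices of the multiples of an ideal, real quadratic fields
-/

set_option autoImplicit false

open MeasureTheory Set Filter NumberField
open scoped Real nonZeroDivisors Matrix MatrixGroups

namespace Pool.Agent.H16.DF

open Pool.Agent.H31.CN Pool.Agent.H89.FM Pool.Agent.H61.FM Pool.Agent.H89.FC Pool.Agent.H95.FC
open Pool.Agent.H89.DF Pool.Agent.H95.DR

section

variable {K : Type} [Field K]

/-- the map of the vectors to the numbers -/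
noncomputable def phi (α β : 𝓞 K) : ℤ × ℤ →+ 𝓞 K :=
  AddMonoidHom.mk' (fun v => (v.1 : 𝓞 K) * α + (v.2 : 𝓞 K) * β) (by
    intro v w
    rw [Prod.fst_add, Prod.snd_add]
    push_cast
    ring)

theorem phi_apply [NumberField K] (α β : 𝓞 K) (v : ℤ × ℤ) : phi α β v = lv K α β v := rfl

theorem lt_eq [NumberField K] (α β : 𝓞 K) (J : Ideal (𝓞 K)) :
    lt K α β J = (Submodule.toAddSubgroup J).comap (phi α β) := rfl

theorem mem_lt [NumberField K] (α β : 𝓞 K) (J : Ideal (𝓞 K)) (v : ℤ × ℤ) :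
    v ∈ lt K α β J ↔ lv K α β v ∈ J := Iff.rfl

theorem range_phi [NumberField K] {σ σ' : K →+* ℝ} {I : Ideal (𝓞 K)} {α β : 𝓞 K} {Q : QF}
    (h : OBr σ σ' I α β Q) : (phi α β).range = Submodule.toAddSubgroup I := by
  ext x
  constructor
  · rintro ⟨v, rfl⟩
    exact (h.mem _).mpr ⟨v, rfl⟩
  · intro hx
    obtain ⟨v, hv⟩ := (h.mem x).mp hx
    exact ⟨v, hv.symm⟩

theorem index_ideal [NumberField K] (J : Ideal (𝓞 K)) :
    (Submodule.toAddSubgroup J).index = Ideal.absNorm J := rfl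

theorem index_lt [NumberField K] {σ σ' : K →+* ℝ} {I : Ideal (𝓞 K)} {α β : 𝓞 K} {Q : QF}
    (h : OBr σ σ' I α β Q) (hI : I ≠ ⊥) (P : Ideal (𝓞 K)) :
    (lt K α β (P * I)).index = Ideal.absNorm P := by
  rw [lt_eq, AddSubgroup.index_comap, range_phi h]
  have hle : Submodule.toAddSubgroup (P * I) ≤ Submodule.toAddSubgroup I := by
    intro x hx
    exact Ideal.mul_le_right hx
  have h1 := AddSubgroup.relIndex_mul_index hle
  rw [index_ideal, index_ideal, map_mul] at h1
  have h2 : Ideal.absNorm I ≠ 0 := by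
    rw [Ne, Ideal.absNorm_eq_zero_iff]
    exact hI
  exact mul_right_cancel₀ h2 h1

end

theorem pf_LINr (hVIGr : T_VIGr) (_hEMB : T_EMB) : T_LINr := by
  intro K _ _ D σ σ' hRQ I P α β Q hOB
  obtain ⟨b, hb⟩ := hVIGr K D σ σ' hRQ I α β Q hOB
  have hI0 : (I : Ideal (𝓞 K)) ≠ 0 := nonZeroDivisors.coe_ne_zero I
  refine ⟨index_lt hOB hI0 P, ?_, ?_⟩
  · intro v hv
    by_cases hv0 : v = 0
    · subst hv0
      simp [val]
    · have h1 : (P : Ideal (𝓞 K)) * I ∣ (b v : Ideal (𝓞 K)) * I := by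
        rw [← hb.spn v hv0, Ideal.dvd_span_singleton]
        exact hv
      have h2 : (P : Ideal (𝓞 K)) ∣ (b v : Ideal (𝓞 K)) := (mul_dvd_mul_iff_right hI0).mp h1
      rw [← dvd_abs, ← hb.nrm v hv0]
      have h3 : nm P ∣ nm (b v) := by
        unfold nm
        exact map_dvd _ h2
      exact_mod_cast h3
  · intro P' hP'
    have h1 : (P' : Ideal (𝓞 K)) * I = P * I := by
      have hsub : ∀ P1 P2 : Ideal (𝓞 K), lt K α β (P1 * I) = lt K α β (P2 * I) →
          P1 * I ≤ P2 * I := by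
        intro P1 P2 h12 x hx
        have hxI : x ∈ (I : Ideal (𝓞 K)) := Ideal.mul_le_right hx
        obtain ⟨v, hv⟩ := (hOB.mem x).mp hxI
        have h3 : v ∈ lt K α β (P1 * I) := by
          rw [mem_lt, ← hv]
          exact hx
        rw [h12, mem_lt, ← hv] at h3
        exact h3
      exact le_antisymm (hsub _ _ hP') (hsub _ _ hP'.symm)
    exact Subtype.ext (mul_right_cancel₀ hI0 h1)

end Pool.Agent.H16.DF
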